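import Pool.Agent.Helper93.IA.St0

/-!
# Project IA, part N (nibble): the random choice of one round and the interface of its means

Probability space: `σ : α × β → Option γ`, the coordinates are independent, `σ (a, b) = some c` with
probability `x a b c` and `none` with the remaining probability. `Ex (wt x) f` is the expectation.
-/

set_option autoImplicit false

namespace Pool.Agent.Helper17.IAN

open Finset Pool.Agent.Helper93.IA

variable {α β γ : Type} [Fintype α] [Fintype β] [Fintype γ] [DecidableEq α] [DecidableEq β]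
  [DecidableEq γ]

/-- The weights of the coordinate `(a, b)`. -/
def wt (x : α → β → γ → ℝ) (e : α × β) : Option γ → ℝ
  | none => 1 - ∑ c, x e.1 e.2 c
  | some c => x e.1 e.2 c

/-- The triple `(a, b, c)` is used. -/
def used (σ : α × β → Option γ) (a : α) (b : β) (c : γ) : Prop :=
  σ (a, b) = some c ∧ (∀ b', b' ≠ b → σ (a, b') ≠ some c) ∧ ∀ a', a' ≠ a → σ (a', b) ≠ some c

def covA (σ : α × β → Option γ) (a : α) (b : β) : Prop := ∃ c, used σ a b c

def covB (σ : α × β → Option γ) (b : β) (c : γ) : Prop := ∃ a, used σ a b c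

def covC (σ : α × β → Option γ) (c : γ) (a : α) : Prop := ∃ b, used σ a b c

/-- Probability of the event `P`. -/
noncomputable def Pr (x : α → β → γ → ℝ) (P : (α × β → Option γ) → Prop) : ℝ :=
  open Classical in Ex (wt x) (fun σ => if P σ then 1 else 0)

/-- The data of one round: `x` is nonnegative, at most `Λ / n`, the sums over the triples through an
edge are at most `1`, and at least `1 - δ` if one term is not `0`. -/
structure Dat (n : ℕ) (Λ δ : ℝ) (x : α → β → γ → ℝ) : Prop where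
  nα : Fintype.card α = n
  nβ : Fintype.card β = n
  nγ : Fintype.card γ = n
  x0 : ∀ a b c, 0 ≤ x a b c
  x1 : ∀ a b c, x a b c ≤ Λ / n
  uA : ∀ a b, ∑ c, x a b c ≤ 1
  uB : ∀ b c, ∑ a, x a b c ≤ 1
  uC : ∀ c a, ∑ b, x a b c ≤ 1
  lA : ∀ a b c, x a b c ≠ 0 → 1 - δ ≤ ∑ c', x a b c'
  lB : ∀ a b c, x a b c ≠ 0 → 1 - δ ≤ ∑ a', x a' b c
  lC : ∀ a b c, x a b c ≠ 0 → 1 - δ ≤ ∑ b', x a b' c

/-- `q = 1 - exp (-2)`. -/
noncomputable def q : ℝ := 1 - Real.exp (-2)

/-- INTERFACE of the means: for an edge which carries some triple of positive weight the probability to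
stay uncovered is `q + O(δ + Λ / n)`; for a triple of positive weight any two of its edges stay both
uncovered with probability `q ^ 2 + O(δ + Λ / n)`. -/
def StMEAN : Prop :=
  ∃ K : ℝ, 0 < K ∧ ∀ (α β γ : Type) [Fintype α] [Fintype β] [Fintype γ] [DecidableEq α]
    [DecidableEq β] [DecidableEq γ] (n : ℕ) (Λ δ : ℝ) (x : α → β → γ → ℝ), 1 ≤ Λ → 0 ≤ δ →
    Λ ≤ n / 4 → Dat n Λ δ x → ∀ a b c, x a b c ≠ 0 →
      |Pr x (fun σ => ¬ covA σ a b) - q| ≤ K * (δ + Λ / n) ∧
      |Pr x (fun σ => ¬ covB σ b c) - q| ≤ K * (δ + Λ / n) ∧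
      |Pr x (fun σ => ¬ covC σ c a) - q| ≤ K * (δ + Λ / n) ∧
      |Pr x (fun σ => ¬ covB σ b c ∧ ¬ covC σ c a) - q ^ 2| ≤ K * (δ + Λ / n) ∧
      |Pr x (fun σ => ¬ covC σ c a ∧ ¬ covA σ a b) - q ^ 2| ≤ K * (δ + Λ / n) ∧
      |Pr x (fun σ => ¬ covA σ a b ∧ ¬ covB σ b c) - q ^ 2| ≤ K * (δ + Λ / n)

end Pool.Agent.Helper17.IAN
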