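import Pool.Agent.Helper17.IAN.Def

/-!
# Project IA, part N (nibble): modules for the means (`StMEAN`)

Throughout `θ = Λ / n`.
-/

set_option autoImplicit false

namespace Pool.Agent.Helper17.IAN

open Finset Pool.Agent.Helper93.IA

/-- PRD (expectation of a product of functions of the coordinates). PROOF. Unfold `Ex`; the summand is
`∏ i, (w i (σ i) * g i (σ i))` (`Finset.prod_mul_distrib`); then `Finset.prod_univ_sum` (with
`Fintype.piFinset_univ`) read from right to left. (2): `g = 1`. -/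
def StPRD : Prop :=
  ∀ (ι : Type) [Fintype ι] [DecidableEq ι] (κ : ι → Type) [∀ i, Fintype (κ i)]
    (w : ∀ i, κ i → ℝ),
    (∀ g : ∀ i, κ i → ℝ, Ex w (fun σ => ∏ i, g i (σ i)) = ∏ i, ∑ u, w i u * g i u) ∧
    ((∀ i, ∑ u, w i u = 1) → Ex w (fun _ => 1) = 1)

/-- PRA (rules for `Pr`). PROOF. `Pr x P = ∑ σ, (∏ e, wt x e (σ e)) * [P σ]`, the weights are `≥ 0`
(`x ≥ 0`, `∑ c, x a b c ≤ 1`) and sum up to `1` (PRD (2); `∑ u : Option γ, wt x e u = 1` by
`Fintype.sum_option`). (1) monotone; (2), (3) and (4) by adding the indicators under the sum: for every `σ`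
`[¬P] = 1 - [P]`, `[¬P ∧ ¬Q] = 1 - [P] - [Q] + [P ∧ Q]`, `[∃ i, P i] = ∑ i, [P i]` if at most one `P i`
holds. -/
def StPRA : Prop :=
  StPRD → ∀ (α β γ : Type) [Fintype α] [Fintype β] [Fintype γ] [DecidableEq α]
    [DecidableEq β] [DecidableEq γ] (x : α → β → γ → ℝ), (∀ a b c, 0 ≤ x a b c) →
    (∀ a b, ∑ c, x a b c ≤ 1) →
    (∀ P Q : (α × β → Option γ) → Prop, (∀ σ, P σ → Q σ) → Pr x P ≤ Pr x Q) ∧
    (∀ P : (α × β → Option γ) → Prop, 0 ≤ Pr x P ∧ Pr x (fun σ => ¬ P σ) = 1 - Pr x P) ∧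
    (∀ P Q : (α × β → Option γ) → Prop,
      Pr x (fun σ => ¬ P σ ∧ ¬ Q σ) = 1 - Pr x P - Pr x Q + Pr x (fun σ => P σ ∧ Q σ)) ∧
    ∀ (ι : Type) [Fintype ι] [DecidableEq ι] (P : ι → (α × β → Option γ) → Prop),
      (∀ σ i j, P i σ → P j σ → i = j) →
      Pr x (fun σ => ∃ i, P i σ) = ∑ i, Pr x (P i)

/-- CYL (probability of a cylinder event). `p e` is the probability of the event `G e` at the coordinate
`e`. PROOF. The indicator of `∀ e, G e (σ e)` is `∏ e, [G e (σ e)]` (`Finset.prod_ite_zero` or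
`Finset.prod_boole`), then PRD. (Use classical decidability.) -/
def StCYL : Prop :=
  StPRD → ∀ (α β γ : Type) [Fintype α] [Fintype β] [Fintype γ] [DecidableEq α]
    [DecidableEq β] [DecidableEq γ] (x : α → β → γ → ℝ) (G : α × β → Option γ → Prop)
    [∀ e u, Decidable (G e u)],
    Pr x (fun σ => ∀ e, G e (σ e)) = ∏ e, ∑ u : Option γ, wt x e u * (if G e u then 1 else 0)

/-- PUS (probability of `used`). PROOF. `used σ a b c` is the cylinder event with `G (a,b) u ↔ u = some c`,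
`G (a,b') u ↔ u ≠ some c` for `b' ≠ b`, `G (a',b) u ↔ u ≠ some c` for `a' ≠ a`, `G e u` always true for
the other coordinates `e`. The factor is `x a b c` for `e = (a,b)`, `1 - x a b' c` for `e = (a,b')`,
`1 - x a' b c` for `e = (a',b)` (since `∑ u, wt x e u = 1`), and `1` for the others. The product over
`α × β` is rewritten as the product over `a'` and `b'` (`Fintype.prod_prod_type`), splitting off the row
`a` (`Finset.mul_prod_erase`). -/
def StPUS : Prop :=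
  StCYL → StPRD → ∀ (α β γ : Type) [Fintype α] [Fintype β] [Fintype γ] [DecidableEq α]
    [DecidableEq β] [DecidableEq γ] (x : α → β → γ → ℝ) (a : α) (b : β) (c : γ),
    Pr x (fun σ => used σ a b c)
      = x a b c * ((∏ b' ∈ univ.erase b, (1 - x a b' c)) * ∏ a' ∈ univ.erase a, (1 - x a' b c))

/-- PJA (two used triples with the same third entry). PROOF. Intersection of the two cylinder events:
coordinate `(a,b')`: `= some c`; `(a',b)`: `= some c`; all the other coordinates in the rows `a`, `a'` and in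
the columns `b`, `b'`: `≠ some c`; the others free. (`(a,b')` is neither in the row `a'` nor in the
column `b`.) The factors are as in PUS; the product over `α × β` is split into the rows `a`, `a'` and
the other rows: row `a`: `x a b' c * (1 - x a b c) * ∏_{b'' ∉ {b,b'}} (1 - x a b'' c)`, row `a'`:
`x a' b c * (1 - x a' b' c) * ∏ ..`, every other row `a''`: `(1 - x a'' b c) * (1 - x a'' b' c)`. -/
def StPJA : Prop :=
  StCYL → StPRD → ∀ (α β γ : Type) [Fintype α] [Fintype β] [Fintype γ] [DecidableEq α]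
    [DecidableEq β] [DecidableEq γ] (x : α → β → γ → ℝ) (a a' : α) (b b' : β) (c : γ), a ≠ a' →
    b ≠ b' →
    Pr x (fun σ => used σ a b' c ∧ used σ a' b c)
      = x a b' c * x a' b c * ((1 - x a b c) * (1 - x a' b' c)
        * ((∏ b'' ∈ (univ.erase b).erase b', (1 - x a b'' c))
          * (∏ b'' ∈ (univ.erase b).erase b', (1 - x a' b'' c))
          * ((∏ a'' ∈ (univ.erase a).erase a', (1 - x a'' b c))
            * ∏ a'' ∈ (univ.erase a).erase a', (1 - x a'' b' c))))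

/-- PJB (two used triples with the same second entry). PROOF. Intersection of the two cylinder events:
coordinate `(a,b)`: `= some c'` (then automatically `≠ some c`); `(a',b)`: `= some c`; `(a'',b)` for the
other `a''`: `≠ some c` and `≠ some c'`, probability `1 - x a'' b c - x a'' b c'`; `(a,b'')`, `b'' ≠ b`:
`≠ some c'`; `(a',b'')`, `b'' ≠ b`: `≠ some c`; the others free. -/
def StPJB : Prop :=
  StCYL → StPRD → ∀ (α β γ : Type) [Fintype α] [Fintype β] [Fintype γ] [DecidableEq α]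
    [DecidableEq β] [DecidableEq γ] (x : α → β → γ → ℝ) (a a' : α) (b : β) (c c' : γ), a ≠ a' →
    c ≠ c' →
    Pr x (fun σ => used σ a b c' ∧ used σ a' b c)
      = x a b c' * x a' b c * ((∏ a'' ∈ (univ.erase a).erase a', (1 - (x a'' b c + x a'' b c')))
        * ((∏ b'' ∈ univ.erase b, (1 - x a b'' c')) * ∏ b'' ∈ univ.erase b, (1 - x a' b'' c)))

/-- EXB (products against the exponential function). PROOF. Upper bound: `1 - y ≤ exp (-y)`
(`Real.add_one_le_exp`), so `∏ ≤ exp (-∑ y) ≤ exp (-t)` with `t = max 0 (s - ε)`, and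
`exp (-t) - exp (-s) ≤ s - t ≤ ε` (`exp (-t) - exp (-s) = exp (-t) (1 - exp (-(s - t))) ≤ s - t`). Lower
bound: for `0 ≤ y ≤ 1/2`, `1 - y ≥ exp (-y - y^2)` (for instance `exp (y + y^2) ≤ 1/(1-y)`; or from
`Real.abs_log_sub_add_sum_range_le` / `Real.one_sub_inv_le_log_of_pos`; an elementary way:
`exp (-y-y^2) * exp (y + y^2) = 1` and `exp z ≤ 1 + z + z^2` for `0 ≤ z ≤ 1`
(`Real.abs_exp_sub_one_sub_id_le`), with `z = y + y^2 ≤ 3/4`, and `(1-y)(1 + z + z^2) ≥ 1`), so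
`∏ ≥ exp (-∑ y - θ ∑ y) ≥ exp (-s - θ s) ≥ exp (-s) - θ s`. Remark on the last elementary way: one needs
`exp z * (1 - y) ≥ 1`, which follows from `exp z ≥ 1 + z + z^2/2` (`Real.quadratic_le_exp_of_nonneg`) and
`(1-y)(1 + y + y^2 + (y+y^2)^2/2) ≥ 1` for `0 ≤ y ≤ 1/2` (`nlinarith`: it is
`1 + y^2/2 - y^3/2 .. ≥ 1`, check). -/
def StEXB : Prop :=
  ∀ (ι : Type) (J : Finset ι) (y : ι → ℝ) (s ε θ : ℝ), 0 ≤ θ → θ ≤ 1 / 2 → 0 ≤ s → 0 ≤ ε →
    (∀ j ∈ J, 0 ≤ y j ∧ y j ≤ θ) → ∑ j ∈ J, y j ≤ s → s - ε ≤ ∑ j ∈ J, y j →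
    |(∏ j ∈ J, (1 - y j)) - Real.exp (-s)| ≤ ε + θ * s

/-- EUS (estimate for one used triple). PROOF. PUS and EXB for the disjoint union (index type
`β ⊕ α`, `J = (univ.erase b).disjSum (univ.erase a)`, `Finset.prod_disjSum`) with `s = 2`,
`ε = 2 δ + 2 θ`: `∑_{b' ≠ b} x a b' c = ∑ b', x a b' c - x a b c ∈ [1 - δ - θ, 1]` and the same for the
column (`lC`, `lB`, `uC`, `uB`, as `x a b c ≠ 0`; if `x a b c = 0` both sides are `0`); the result
`|∏ - exp (-2)| ≤ 2 δ + 2 θ + 2 θ`, multiplied by `x a b c`. -/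
def StEUS : Prop :=
  StPUS → StCYL → StPRD → StEXB → ∀ (α β γ : Type) [Fintype α] [Fintype β] [Fintype γ]
    [DecidableEq α] [DecidableEq β] [DecidableEq γ] (n : ℕ) (Λ δ : ℝ) (x : α → β → γ → ℝ), 0 ≤ δ →
    0 ≤ Λ / n → Λ / n ≤ 1 / 4 → Dat n Λ δ x → ∀ a b c,
    |Pr x (fun σ => used σ a b c) - Real.exp (-2) * x a b c|
      ≤ (2 * δ + 4 * (Λ / n)) * x a b c

/-- EJA (estimate for PJA). PROOF. If `x a b' c * x a' b c = 0` both sides are `0` by PJA. Otherwise EXB on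
the index type `Fin 2 ⊕ ((β ⊕ β) ⊕ (α ⊕ α))` (or multiply out step by step; any way is fine), all
`y ≤ θ`, `s = 4`, `ε = 4 δ + 6 θ`: the sum of all the `y` is
`(∑ b'', x a b'' c) + (∑ b'', x a' b'' c) + (∑ a'', x a'' b c) + (∑ a'', x a'' b' c)
 - 2 x a b' c - 2 x a' b c - x a b c - x a' b' c`, the four sums are in `[1 - δ, 1]` by `lC`, `lB` at the
two triples `(a,b',c)`, `(a',b,c)`. Total error `4 δ + 6 θ + 4 θ`. -/
def StEJA : Prop :=
  StPJA → StCYL → StPRD → StEXB → ∀ (α β γ : Type) [Fintype α] [Fintype β] [Fintype γ]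
    [DecidableEq α] [DecidableEq β] [DecidableEq γ] (n : ℕ) (Λ δ : ℝ) (x : α → β → γ → ℝ), 0 ≤ δ →
    0 ≤ Λ / n → Λ / n ≤ 1 / 4 → Dat n Λ δ x → ∀ (a a' : α) (b b' : β) (c : γ), a ≠ a' → b ≠ b' →
    |Pr x (fun σ => used σ a b' c ∧ used σ a' b c) - Real.exp (-4) * (x a b' c * x a' b c)|
      ≤ (4 * δ + 14 * (Λ / n)) * (x a b' c * x a' b c)

/-- EJB (estimate for PJB). PROOF. If `x a b c' * x a' b c = 0` both sides are `0`. Otherwise EXB on the
index type `α ⊕ (β ⊕ β)`, all `y ≤ 2 θ ≤ 1/2`, `s = 4`, `ε = 4 δ + 6 θ`: the sum of all the `y` is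
`(∑ a'', x a'' b c) - x a b c - x a' b c + (∑ a'', x a'' b c') - x a b c' - x a' b c'
 + (∑ b'', x a b'' c') - x a b c' + (∑ b'', x a' b'' c) - x a' b c`, the four sums are in `[1 - δ, 1]` by
`lB`, `lC` at `(a,b,c')`, `(a',b,c)`. Total error `4 δ + 6 θ + 8 θ`. -/
def StEJB : Prop :=
  StPJB → StCYL → StPRD → StEXB → ∀ (α β γ : Type) [Fintype α] [Fintype β] [Fintype γ]
    [DecidableEq α] [DecidableEq β] [DecidableEq γ] (n : ℕ) (Λ δ : ℝ) (x : α → β → γ → ℝ), 0 ≤ δ →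
    0 ≤ Λ / n → Λ / n ≤ 1 / 4 → Dat n Λ δ x → ∀ (a a' : α) (b : β) (c c' : γ), a ≠ a' → c ≠ c' →
    |Pr x (fun σ => used σ a b c' ∧ used σ a' b c) - Real.exp (-4) * (x a b c' * x a' b c)|
      ≤ (4 * δ + 14 * (Λ / n)) * (x a b c' * x a' b c)

/-- CVS (single edges). PROOF. For fixed `(a,b)` at most one `c` has `used σ a b c` (`σ (a,b) = some c`); for
fixed `(b,c)` at most one `a` has `used σ a b c` (if also `used σ a' b c`, `a' ≠ a`, then
`σ (a',b) = some c` contradicts the third clause for `a`); for fixed `(c,a)` at most one `b`. So by PRA (4)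
`Pr (covA σ a b) = ∑ c, Pr (used σ a b c)`, which is within `(2 δ + 4 θ) ∑ c, x a b c ≤ 2 δ + 4 θ` of
`exp (-2) ∑ c, x a b c`, and `∑ c, x a b c ∈ [1 - δ, 1]`; the same for `covB`, `covC`. Total:
`|Pr cov - exp (-2)| ≤ 3 δ + 4 θ`. -/
def StCVS : Prop :=
  StPRD → StPRA →
  (∀ (α β γ : Type) [Fintype α] [Fintype β] [Fintype γ]
    [DecidableEq α] [DecidableEq β] [DecidableEq γ] (n : ℕ) (Λ δ : ℝ) (x : α → β → γ → ℝ), 0 ≤ δ →
    0 ≤ Λ / n → Λ / n ≤ 1 / 4 → Dat n Λ δ x → ∀ a b c,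
    |Pr x (fun σ => used σ a b c) - Real.exp (-2) * x a b c|
      ≤ (2 * δ + 4 * (Λ / n)) * x a b c) →
  ∀ (α β γ : Type) [Fintype α] [Fintype β] [Fintype γ] [DecidableEq α] [DecidableEq β]
    [DecidableEq γ] (n : ℕ) (Λ δ : ℝ) (x : α → β → γ → ℝ), 0 ≤ δ → 0 ≤ Λ / n → Λ / n ≤ 1 / 4 →
    Dat n Λ δ x → ∀ a b c, x a b c ≠ 0 →
    |Pr x (fun σ => covA σ a b) - Real.exp (-2)| ≤ 3 * δ + 4 * (Λ / n) ∧
    |Pr x (fun σ => covB σ b c) - Real.exp (-2)| ≤ 3 * δ + 4 * (Λ / n) ∧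
    |Pr x (fun σ => covC σ c a) - Real.exp (-2)| ≤ 3 * δ + 4 * (Λ / n)

/-- CVA (both `(b,c)` and `(c,a)` covered). PROOF. `covB σ b c ∧ covC σ c a` holds iff there is a pair
`(a', b')` with `used σ a' b c ∧ used σ a b' c`, and the pair is unique (see CVS). If `a' = a` then
`σ (a,b) = some c`, so `b' = b` (uniqueness), and conversely. So by PRA (4) (index type `α × β`)
`Pr = Pr (used σ a b c) + ∑_{a' ≠ a} ∑_{b' ≠ b} Pr (used σ a b' c ∧ used σ a' b c)` (the pairs `(a, b')`,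
`b' ≠ b`, and `(a', b)`, `a' ≠ a`, give impossible events, probability `0`). By EJA the double sum is within
`4 δ + 14 θ` of `exp (-4) (∑_{a' ≠ a} x a' b c)(∑_{b' ≠ b} x a b' c)`, the two sums are in
`[1 - δ - θ, 1]`, their product in `[1 - 2 δ - 2 θ, 1]`; `0 ≤ Pr (used σ a b c) ≤ x a b c ≤ θ` (from PUS: the
other factors are in `[0,1]`). Total `≤ 6 δ + 17 θ`. -/
def StCVA : Prop :=
  StPRD → StCYL → StPRA → StPUS →
  (∀ (α β γ : Type) [Fintype α] [Fintype β] [Fintype γ]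
    [DecidableEq α] [DecidableEq β] [DecidableEq γ] (n : ℕ) (Λ δ : ℝ) (x : α → β → γ → ℝ), 0 ≤ δ →
    0 ≤ Λ / n → Λ / n ≤ 1 / 4 → Dat n Λ δ x → ∀ (a a' : α) (b b' : β) (c : γ), a ≠ a' → b ≠ b' →
    |Pr x (fun σ => used σ a b' c ∧ used σ a' b c) - Real.exp (-4) * (x a b' c * x a' b c)|
      ≤ (4 * δ + 14 * (Λ / n)) * (x a b' c * x a' b c)) →
  ∀ (α β γ : Type) [Fintype α] [Fintype β] [Fintype γ] [DecidableEq α] [DecidableEq β]
    [DecidableEq γ] (n : ℕ) (Λ δ : ℝ) (x : α → β → γ → ℝ), 0 ≤ δ → 0 ≤ Λ / n → Λ / n ≤ 1 / 4 →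
    Dat n Λ δ x → ∀ a b c, x a b c ≠ 0 →
    |Pr x (fun σ => covB σ b c ∧ covC σ c a) - Real.exp (-4)| ≤ 6 * δ + 17 * (Λ / n)

/-- CVB (both `(a,b)` and `(b,c)` covered). PROOF. `covA σ a b ∧ covB σ b c` holds iff there is a pair
`(a', c')` with `used σ a b c' ∧ used σ a' b c`, and the pair is unique. If `a' = a` or `c' = c` then
`σ (a,b) = some c` (for `c' = c`: `used σ a b c` and `used σ a' b c` give `a' = a`), so `a' = a`, `c' = c`.
So `Pr = Pr (used σ a b c) + ∑_{a' ≠ a} ∑_{c' ≠ c} Pr (used σ a b c' ∧ used σ a' b c)`; estimate as in CVA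
with EJB. -/
def StCVB : Prop :=
  StPRD → StCYL → StPRA → StPUS →
  (∀ (α β γ : Type) [Fintype α] [Fintype β] [Fintype γ]
    [DecidableEq α] [DecidableEq β] [DecidableEq γ] (n : ℕ) (Λ δ : ℝ) (x : α → β → γ → ℝ), 0 ≤ δ →
    0 ≤ Λ / n → Λ / n ≤ 1 / 4 → Dat n Λ δ x → ∀ (a a' : α) (b : β) (c c' : γ), a ≠ a' → c ≠ c' →
    |Pr x (fun σ => used σ a b c' ∧ used σ a' b c) - Real.exp (-4) * (x a b c' * x a' b c)|
      ≤ (4 * δ + 14 * (Λ / n)) * (x a b c' * x a' b c)) →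
  ∀ (α β γ : Type) [Fintype α] [Fintype β] [Fintype γ] [DecidableEq α] [DecidableEq β]
    [DecidableEq γ] (n : ℕ) (Λ δ : ℝ) (x : α → β → γ → ℝ), 0 ≤ δ → 0 ≤ Λ / n → Λ / n ≤ 1 / 4 →
    Dat n Λ δ x → ∀ a b c, x a b c ≠ 0 →
    |Pr x (fun σ => covA σ a b ∧ covB σ b c) - Real.exp (-4)| ≤ 6 * δ + 17 * (Λ / n)

/-- TRP (transposition of the first two entries). PROOF. `Pr` is a sum over `σ`; reindex it by
`σ ↦ fun e => σ e.swap` (`Equiv.arrowCongr` of `Equiv.prodComm`, or `Fintype.sum_equiv`), and the product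
over the coordinates by `Equiv.prodComm`. `Dat`: the fields are permuted (`uB` and `uC`, `lB` and
`lC` exchanged). `covA`, `covB`, `covC`: direct from `used`. -/
def StTRP : Prop :=
  ∀ (α β γ : Type) [Fintype α] [Fintype β] [Fintype γ] [DecidableEq α] [DecidableEq β]
    [DecidableEq γ] (x : α → β → γ → ℝ),
    (∀ (n : ℕ) (Λ δ : ℝ), Dat n Λ δ x → Dat n Λ δ (fun (b : β) (a : α) (c : γ) => x a b c)) ∧
    (∀ P : (α × β → Option γ) → Prop,
      Pr (fun (b : β) (a : α) (c : γ) => x a b c) (fun σ => P (fun e => σ e.swap)) = Pr x P) ∧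
    ∀ (σ : β × α → Option γ) (a : α) (b : β) (c : γ),
      (covA σ b a ↔ covA (fun e : α × β => σ e.swap) a b) ∧
      (covB σ a c ↔ covC (fun e : α × β => σ e.swap) c a) ∧
      (covC σ c b ↔ covB (fun e : α × β => σ e.swap) b c)

/-- MFN: `StMEAN` from the modules, with `K = 40`. PROOF. `θ = Λ/n ∈ [0, 1/4]`. `Pr (¬cov) = 1 - Pr cov`
(PRA (2)), `q = 1 - exp (-2)`, error `3 δ + 4 θ` (CVS). `Pr (¬P ∧ ¬Q) = 1 - Pr P - Pr Q + Pr (P ∧ Q)`,
`q^2 = 1 - 2 exp (-2) + exp (-4)`, error `2 (3 δ + 4 θ) + 6 δ + 17 θ`. The pair `(c,a)`, `(a,b)`: CVB for the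
transposed `x` (TRP): `covA' σ b a ∧ covB' σ a c` corresponds to `covA a b ∧ covC c a`. -/
def StMFN : Prop :=
  StPRD → StPRA → StTRP →
  (∀ (α β γ : Type) [Fintype α] [Fintype β] [Fintype γ] [DecidableEq α] [DecidableEq β]
    [DecidableEq γ] (n : ℕ) (Λ δ : ℝ) (x : α → β → γ → ℝ), 0 ≤ δ → 0 ≤ Λ / n → Λ / n ≤ 1 / 4 →
    Dat n Λ δ x → ∀ a b c, x a b c ≠ 0 →
    |Pr x (fun σ => covA σ a b) - Real.exp (-2)| ≤ 3 * δ + 4 * (Λ / n) ∧
    |Pr x (fun σ => covB σ b c) - Real.exp (-2)| ≤ 3 * δ + 4 * (Λ / n) ∧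
    |Pr x (fun σ => covC σ c a) - Real.exp (-2)| ≤ 3 * δ + 4 * (Λ / n)) →
  (∀ (α β γ : Type) [Fintype α] [Fintype β] [Fintype γ] [DecidableEq α] [DecidableEq β]
    [DecidableEq γ] (n : ℕ) (Λ δ : ℝ) (x : α → β → γ → ℝ), 0 ≤ δ → 0 ≤ Λ / n → Λ / n ≤ 1 / 4 →
    Dat n Λ δ x → ∀ a b c, x a b c ≠ 0 →
    |Pr x (fun σ => covB σ b c ∧ covC σ c a) - Real.exp (-4)| ≤ 6 * δ + 17 * (Λ / n)) →
  (∀ (α β γ : Type) [Fintype α] [Fintype β] [Fintype γ] [DecidableEq α] [DecidableEq β]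
    [DecidableEq γ] (n : ℕ) (Λ δ : ℝ) (x : α → β → γ → ℝ), 0 ≤ δ → 0 ≤ Λ / n → Λ / n ≤ 1 / 4 →
    Dat n Λ δ x → ∀ a b c, x a b c ≠ 0 →
    |Pr x (fun σ => covA σ a b ∧ covB σ b c) - Real.exp (-4)| ≤ 6 * δ + 17 * (Λ / n)) →
  StMEAN

/-- PCK (the used triples form a packing). For `σ` with all the chosen weights `≠ 0` every used triple has
`x a b c ≠ 0`. PROOF. `used σ a b c` gives `σ (a,b) = some c`, so `wt x (a,b) (σ (a,b)) = x a b c ≠ 0`, so the
triple is a triangle. Injectivity: see CVS. Images: by definition of `covA`, `covB`, `covC`. -/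
def StPCK : Prop :=
  ∀ (α β γ : Type) [Fintype α] [Fintype β] [Fintype γ] [DecidableEq α] [DecidableEq β]
    [DecidableEq γ] (x : α → β → γ → ℝ) (A : Finset (α × β)) (B : Finset (β × γ))
    (C : Finset (γ × α)) (σ : α × β → Option γ),
    (∀ a b c, x a b c ≠ 0 → (a, b) ∈ A ∧ (b, c) ∈ B ∧ (c, a) ∈ C) →
    (∀ e, wt x e (σ e) ≠ 0) →
    ∃ P : Finset (α × β × γ), Pack A B C P ∧ (∀ a b c, (a, b, c) ∈ P ↔ used σ a b c) ∧
      (∀ a b, (a, b) ∈ P.image eA ↔ covA σ a b) ∧ (∀ b c, (b, c) ∈ P.image eB ↔ covB σ b c) ∧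
      ∀ c a, (c, a) ∈ P.image eC ↔ covC σ c a

end Pool.Agent.Helper17.IAN
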